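import Mathlib
import Pool.Agent.H57.Wei

set_option autoImplicit false

open Cardinal Pool.Agent.H57.Wei

namespace Pool.Agent.Results.MP_62990a_lc.SetCof

theorem wle_refl (f : Problem) : WLe f f := by
  obtain ⟨I, hI⟩ := main
  exact (hI f f).2 subset_rfl

theorem wle_trans {f g h : Problem} (h1 : WLe f g) (h2 : WLe g h) : WLe f h := by
  obtain ⟨I, hI⟩ := main
  exact (hI f h).2 (((hI f g).1 h1).trans ((hI g h).1 h2))

/-- Weihrauch equivalence -/
def equiv : Setoid Problem where
  r f g := WLe f g ∧ WLe g f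
  iseqv := ⟨fun f => ⟨wle_refl f, wle_refl f⟩, fun h => ⟨h.2, h.1⟩,
    fun h k => ⟨wle_trans h.1 k.1, wle_trans k.2 h.2⟩⟩

/-- the Weihrauch degrees -/
def Deg : Type := Quotient equiv

/-- the order of the Weihrauch degrees, induced by Weihrauch reducibility -/
def DLe : Deg → Deg → Prop :=
  Quotient.lift₂ (s₁ := equiv) (s₂ := equiv) WLe (fun _ _ _ _ h k => propext
    ⟨fun m => wle_trans h.2 (wle_trans m k.1), fun m => wle_trans h.1 (wle_trans m k.2)⟩)

/-- a set of degrees is cofinal if every degree lies below one of its members -/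
def Cofinal (S : Set Deg) : Prop := ∀ d : Deg, ∃ e ∈ S, DLe d e

/-- the set-cofinality of the Weihrauch degrees -/
noncomputable def setcof : Cardinal := sInf {c | ∃ S : Set Deg, Cofinal S ∧ #S = c}

theorem mk_baire : #Baire = 𝔠 := by simp [Baire]

theorem mk_fun : #(Baire → Baire) = 2 ^ 𝔠 := by
  rw [← power_def, mk_baire, power_self_eq aleph0_le_continuum]

theorem mk_problem : #Problem = 2 ^ 𝔠 := by
  rw [← power_def, mk_set, mk_baire, ← power_mul, continuum_mul_self]

/-- the single valued total problem given by a function -/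
def sv (u : Baire → Baire) : Problem := fun x => {u x}

theorem below_countable (g : Problem) : {u : Baire → Baire | WLe (sv u) g}.Countable := by
  have key : ∀ u : {u : Baire → Baire | WLe (sv u) g}, ∃ FG : Functional × Functional,
      ∀ x, ∃ w, FG.1.Eval x w ∧ (g w).Nonempty ∧ ∀ y ∈ g w, FG.2.Eval (pair x y) (u.1 x) := by
    rintro ⟨u, F, G, h⟩
    refine ⟨(F, G), fun x => ?_⟩
    obtain ⟨w, h1, h2, h3⟩ := h x ⟨u x, rfl⟩
    refine ⟨w, h1, h2, fun y hy => ?_⟩
    obtain ⟨z, hz, hz'⟩ := h3 y hy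
    have : z = u x := hz'
    subst this
    exact hz
  choose c hc using key
  have hinj : Function.Injective c := by
    intro u v huv
    apply Subtype.ext
    funext x
    obtain ⟨w, h1, ⟨y, hy⟩, h3⟩ := hc u x
    obtain ⟨w', h1', -, h3'⟩ := hc v x
    rw [← huv] at h1' h3'
    have hw : w = w' := Functional.Eval.unique h1 h1'
    subst hw
    exact Functional.Eval.unique (h3 y hy) (h3' y hy)
  exact hinj.countable

theorem card_of_cofinal (S : Set Deg) (hS : Cofinal S) : #S = 2 ^ 𝔠 := by
  apply le_antisymm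
  · calc #S ≤ #Deg := mk_set_le S
      _ ≤ #Problem := mk_quotient_le
      _ = 2 ^ 𝔠 := mk_problem
  · have hcov : (Set.univ : Set (Baire → Baire)) =
        ⋃ e : S, {u : Baire → Baire | WLe (sv u) (Quotient.out (s := equiv) e.1)} := by
      refine (Set.eq_univ_of_forall fun u => ?_).symm
      obtain ⟨e, he, hle⟩ := hS (Quotient.mk equiv (sv u))
      refine Set.mem_iUnion.2 ⟨⟨e, he⟩, ?_⟩
      rw [← Quotient.out_eq (s := equiv) e] at hle
      exact hle
    have h1 : (2 : Cardinal) ^ 𝔠 ≤ #S * ℵ₀ := by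
      rw [← mk_fun, ← mk_univ, hcov]
      refine (mk_iUnion_le_sum_mk).trans ?_
      refine (sum_le_sum _ (fun _ => ℵ₀) fun e => ?_).trans ?_
      · exact mk_le_aleph0_iff.2 (below_countable _).to_subtype
      · simp
    by_contra hlt
    push Not at hlt
    have h2 : ℵ₀ < (2 : Cardinal) ^ 𝔠 := aleph0_lt_continuum.trans (cantor _)
    exact absurd (mul_lt_of_lt h2.le hlt h2) (not_lt.2 h1)

/-- Every cofinal set of Weihrauch degrees has cardinality `2 ^ 𝔠`, so the set-cofinality of
the Weihrauch degrees is `2 ^ 𝔠`. -/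
theorem result : (∀ S : Set Deg, Cofinal S → #S = 2 ^ 𝔠) ∧ setcof = 2 ^ 𝔠 := by
  refine ⟨card_of_cofinal, ?_⟩
  have hu : Cofinal Set.univ := fun d => ⟨d, trivial, by
    induction d using Quotient.inductionOn with
    | h f => exact wle_refl f⟩
  have : {c | ∃ S : Set Deg, Cofinal S ∧ #S = c} = {2 ^ 𝔠} := by
    ext c
    constructor
    · rintro ⟨S, hS, rfl⟩
      exact card_of_cofinal S hS
    · rintro rfl
      exact ⟨_, hu, card_of_cofinal _ hu⟩
  rw [setcof, this, csInf_singleton]

end Pool.Agent.Results.MP_62990a_lc.SetCof
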